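import Pool.Agent.V11258.GP.Sel

namespace Pool.Agent.Results.MP_ef066b_gt.GroupableNotOmega

open Cardinal Filter Set

/-- `Ω`: the open `ω`-covers of `X` (a cover does not contain `X` itself). -/
def Omega (X : Type) [TopologicalSpace X] : Set (Set (Set X)) :=
  {𝒰 | (∀ U ∈ 𝒰, IsOpen U) ∧ Set.univ ∉ 𝒰 ∧ ∀ F : Finset X, ∃ U ∈ 𝒰, (F : Set X) ⊆ U}

/-- `ℱ` is a partition of `𝒰` into finite sets. -/
def FinitePartition {X : Type} (𝒰 : Set (Set X)) (ℱ : ℕ → Set (Set X)) : Prop :=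
  (∀ n, (ℱ n).Finite) ∧ (∀ m n, m ≠ n → Disjoint (ℱ m) (ℱ n)) ∧ (⋃ n, ℱ n) = 𝒰

/-- `𝒰` is multifinite: a partition into infinitely many finite covers exists. -/
def Multifinite {X : Type} (𝒰 : Set (Set X)) : Prop :=
  ∃ ℱ : ℕ → Set (Set X), FinitePartition 𝒰 ℱ ∧ ∀ n, ⋃₀ ℱ n = Set.univ

/-- `O^{ω-gp}`: the `ω`-groupable open covers of `X` (a cover does not contain `X` itself). -/
def OmegaGp (X : Type) [TopologicalSpace X] : Set (Set (Set X)) :=
  {𝒰 | (∀ U ∈ 𝒰, IsOpen U) ∧ Set.univ ∉ 𝒰 ∧ ⋃₀ 𝒰 = Set.univ ∧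
    (Multifinite 𝒰 ∨ ∃ ℱ : ℕ → Set (Set X), FinitePartition 𝒰 ℱ ∧
      (∀ n, ⋃₀ ℱ n ≠ Set.univ) ∧ ∀ F : Finset X, ∃ n, (F : Set X) ⊆ ⋃₀ ℱ n)}

/-- The selection principle `S₁(𝒜, ℬ)`. -/
def S1 {X : Type} (𝒜 ℬ : Set (Set (Set X))) : Prop :=
  ∀ 𝒰 : ℕ → Set (Set X), (∀ n, 𝒰 n ∈ 𝒜) →
    ∃ U : ℕ → Set X, (∀ n, U n ∈ 𝒰 n) ∧ Set.range U ∈ ℬ

/-- Blocks of a strictly increasing sequence starting at `0` cover `ℕ`. -/
theorem exists_block {a : ℕ → ℕ} (h0 : a 0 = 0) (hm : StrictMono a) (n : ℕ) :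
    ∃ j, n ∈ Ico (a j) (a (j+1)) := by
  classical
  have h : ∃ j, n < a (j+1) := ⟨n, lt_of_lt_of_le (Nat.lt_succ_self n) hm.le_apply⟩
  refine ⟨Nat.find h, ?_, Nat.find_spec h⟩
  rcases Nat.eq_zero_or_pos (Nat.find h) with h1 | h1
  · rw [h1, h0]; exact Nat.zero_le n
  · have h2 := Nat.find_min h (Nat.sub_lt h1 Nat.one_pos)
    rw [Nat.sub_add_cancel h1] at h2
    exact not_lt.mp h2

theorem block_unique {a : ℕ → ℕ} (hm : StrictMono a) {n i j : ℕ} (hi : n ∈ Ico (a i) (a (i+1)))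
    (hj : n ∈ Ico (a j) (a (j+1))) : i = j := by
  by_contra hne
  rcases lt_or_gt_of_ne hne with h | h
  · exact absurd (hi.2.trans_le ((hm.monotone (Nat.succ_le_of_lt h)).trans hj.1)) (lt_irrefl _)
  · exact absurd (hj.2.trans_le ((hm.monotone (Nat.succ_le_of_lt h)).trans hi.1)) (lt_irrefl _)

theorem part {X : Type} (U : ℕ → Set X) (hinj : Function.Injective U) {a : ℕ → ℕ} (h0 : a 0 = 0)
    (hm : StrictMono a) : FinitePartition (Set.range U) (fun j => U '' Ico (a j) (a (j+1))) := by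
  refine ⟨fun j => (finite_Ico _ _).image U, ?_, ?_⟩
  · intro i j hij
    rw [Set.disjoint_left]
    rintro _ ⟨m, hm1, rfl⟩ ⟨n, hn1, e⟩
    have : n = m := hinj e
    subst this
    exact hij (block_unique hm hm1 hn1)
  · ext V
    simp only [mem_iUnion, mem_range, mem_image]
    constructor
    · rintro ⟨j, n, _, rfl⟩; exact ⟨n, rfl⟩
    · rintro ⟨n, rfl⟩
      obtain ⟨j, hj⟩ := exists_block h0 hm n
      exact ⟨j, n, hj, rfl⟩

theorem groupable {X : Type} (U : ℕ → Set X) (hinj : Function.Injective U)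
    (hne : ∀ n, U n ≠ Set.univ) {a : ℕ → ℕ} (h0 : a 0 = 0) (hm : StrictMono a)
    (hF : ∀ F : Finset X, ∃ᶠ j in atTop, (F : Set X) ⊆ ⋃ n ∈ Ico (a j) (a (j+1)), U n) :
    Multifinite (Set.range U) ∨ ∃ ℱ : ℕ → Set (Set X), FinitePartition (Set.range U) ℱ ∧
      (∀ n, ⋃₀ ℱ n ≠ Set.univ) ∧ ∀ F : Finset X, ∃ n, (F : Set X) ⊆ ⋃₀ ℱ n := by
  classical
  have hbl : ∀ (b : ℕ → ℕ) (j : ℕ), ⋃₀ (U '' Ico (b j) (b (j+1))) = ⋃ n ∈ Ico (b j) (b (j+1)), U n := by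
    intro b j; rw [sUnion_image]
  by_cases hfull : ∃ᶠ j in atTop, (⋃ n ∈ Ico (a j) (a (j+1)), U n) = Set.univ
  · left
    have h1 : ∀ m, ∃ j ≥ m, (⋃ n ∈ Ico (a j) (a (j+1)), U n) = Set.univ :=
      Filter.frequently_atTop.mp hfull
    choose f hf1 hf2 using h1
    let b : ℕ → ℕ := fun i => Nat.rec 0 (fun _ x => f x + 1) i
    have hbs : ∀ i, b (i+1) = f (b i) + 1 := fun i => rfl
    have hbm : StrictMono b := strictMono_nat_of_lt_succ fun i => by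
      rw [hbs]; exact Nat.lt_succ_of_le (hf1 _)
    have hab : StrictMono (fun i => a (b i)) := hm.comp hbm
    refine ⟨_, part U hinj (a := fun i => a (b i)) h0 hab, fun i => ?_⟩
    have h2 := hbl (fun i => a (b i)) i
    rw [h2, eq_univ_iff_forall]
    intro x
    have h3 : x ∈ ⋃ n ∈ Ico (a (f (b i))) (a (f (b i) + 1)), U n := by rw [hf2]; trivial
    simp only [mem_iUnion] at h3 ⊢
    obtain ⟨n, hn, hx⟩ := h3
    refine ⟨n, ⟨(hm.monotone (hf1 (b i))).trans hn.1, ?_⟩, hx⟩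
    rw [hbs]; exact hn.2
  · right
    rw [Filter.not_frequently] at hfull
    obtain ⟨N, hN⟩ := eventually_atTop.mp hfull
    let c : ℕ → ℕ := fun i => if i ≤ a N then i else a (N + (i - a N))
    have hc1 : ∀ i, i ≤ a N → c i = i := fun i hi => by simp only [c, hi, if_true]
    have hc2 : ∀ k, c (a N + k) = a (N + k) := by
      intro k
      by_cases hk : k = 0
      · subst hk; simp [c]
      · have : ¬ a N + k ≤ a N := by omega
        simp only [c, this, if_false]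
        congr 2
        omega
    have hcm : StrictMono c := by
      refine strictMono_nat_of_lt_succ fun i => ?_
      rcases lt_or_ge i (a N) with h | h
      · rw [hc1 i h.le, hc1 (i+1) h]; exact Nat.lt_succ_self i
      · obtain ⟨k, rfl⟩ := Nat.exists_eq_add_of_le h
        rw [hc2, add_assoc, hc2]
        exact hm (by omega)
    have hc0 : c 0 = 0 := hc1 0 (Nat.zero_le _)
    refine ⟨_, part U hinj hc0 hcm, fun i => ?_, fun F => ?_⟩
    · show ⋃₀ (U '' Ico (c i) (c (i+1))) ≠ Set.univ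
      rw [hbl c i]
      rcases lt_or_ge i (a N) with h | h
      · rw [hc1 i h.le, hc1 (i+1) h]
        have : (⋃ n ∈ Ico i (i+1), U n) = U i := by
          ext x
          simp only [mem_iUnion, mem_Ico]
          constructor
          · rintro ⟨n, ⟨h1, h2⟩, hx⟩
            have : n = i := by omega
            rw [← this]; exact hx
          · intro hx; exact ⟨i, ⟨le_rfl, Nat.lt_succ_self i⟩, hx⟩
        rw [this]
        exact hne i
      · obtain ⟨k, rfl⟩ := Nat.exists_eq_add_of_le h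
        rw [hc2, add_assoc, hc2]
        exact hN (N + k) (Nat.le_add_right _ _)
    · obtain ⟨j, hj, hjN⟩ := ((hF F).and_eventually (eventually_ge_atTop N)).exists
      obtain ⟨k, rfl⟩ := Nat.exists_eq_add_of_le hjN
      refine ⟨a N + k, ?_⟩
      show (F : Set X) ⊆ ⋃₀ (U '' Ico (c (a N + k)) (c (a N + k + 1)))
      rw [hbl c, hc2, add_assoc, hc2]
      exact hj

/-- Under CH the classes `S₁(Ω, Ω)` and `S₁(Ω, O^{ω-gp})` of sets of reals differ. -/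
theorem result (CH : (𝔠 : Cardinal.{0}) = ℵ₁) :
    ∃ X : Set ℝ, S1 (Omega X) (OmegaGp X) ∧ ¬ S1 (Omega X) (Omega X) := by
  obtain ⟨X, h1, 𝒰, h2, h3, h4, h5⟩ := Pool.Agent.V11258.GP.sel CH
  refine ⟨X, ?_, ?_⟩
  · intro 𝒱 h𝒱
    obtain ⟨U, a, hU, hinj, h0, hm, hF⟩ := h1 𝒱 (fun n => (h𝒱 n).1) (fun n => (h𝒱 n).2.1)
      (fun n => (h𝒱 n).2.2)
    have hne : ∀ n, U n ≠ Set.univ := fun n h => (h𝒱 n).2.1 (h ▸ hU n)
    refine ⟨U, hU, ?_, ?_, ?_, groupable U hinj hne h0 hm hF⟩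
    · rintro _ ⟨n, rfl⟩
      exact (h𝒱 n).1 _ (hU n)
    · rintro ⟨n, hn⟩
      exact hne n hn
    · ext x
      simp only [mem_univ, iff_true]
      obtain ⟨j, hj⟩ := (hF {x}).exists
      have h6 := hj (Finset.mem_coe.mpr (Finset.mem_singleton_self x))
      simp only [mem_iUnion] at h6
      obtain ⟨n, _, h7⟩ := h6
      exact ⟨U n, ⟨n, rfl⟩, h7⟩
  · intro hS
    obtain ⟨U, hU, hΩ⟩ := hS 𝒰 (fun n => ⟨h2 n, h3 n, h4 n⟩)
    refine h5 U hU fun F => ?_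
    obtain ⟨_, ⟨n, rfl⟩, hF⟩ := hΩ.2.2 F
    exact ⟨n, hF⟩

end Pool.Agent.Results.MP_ef066b_gt.GroupableNotOmega
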